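import Pool.Agent.Helper40K9.PS2.St
import Pool.Agent.Helper74K9.PS.Cert2

/-!
Clique factors in dense subgraphs of powers of cycles: key principle and exchange with the cost
`3 ^ (last Y)`.
-/

set_option autoImplicit false

namespace Pool.Agent.Helper40K9.PS2

open Finset Pool.Agent.Helper83K9.CF Pool.Agent.Helper74K9.PS
open Pool.Agent.Helper74K9.PS.CertL (mem_LQ last_mem le_last last_le near nq conf conf_eq)

namespace Ex

/-- key principle -/
theorem kp2 {t k N : ℕ} {q : ℕ → ℕ → Prop} {f : ℕ → ℝ} (hq1 : ∀ x, q x x)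
    (hq2 : ∀ x y, q x y → q y x) (hf : Feas2 q k N t f) {Y : Finset ℕ} (hY : Tgt2 q k N t f Y)
    (hc : Y.card < t) {v : ℕ} (hv : v < N) (hfv : 0 < f v) (hvl : v ≤ Y.sup id)
    (hn : ∀ y ∈ Y, v ≤ y + k ∧ y ≤ v + k) :
    ∃ y ∈ Y, v ∈ LQ q k N y := by
  by_contra hcon
  push Not at hcon
  have hq : ∀ y ∈ Y, ¬ q y v := by
    intro y hy h
    exact hcon y hy (mem_LQ.2 ⟨hv, (hn y hy).1, (hn y hy).2, h⟩)
  have hvY : v ∉ Y := fun h => hq v h (hq1 v)
  have h1 := hf.le (insert v Y) ⟨⟨v, mem_insert_self _ _⟩, by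
      intro x hx
      rcases mem_insert.1 hx with rfl | hx
      · exact mem_range.2 hv
      · exact hY.cq.2.1 hx, by
      intro x hx y hy hxy
      rcases mem_insert.1 hx with h1 | h1 <;> rcases mem_insert.1 hy with h2 | h2
      · omega
      · rw [h1]
        exact ⟨(hn y h2).2, fun h => hq y h2 (hq2 _ _ h)⟩
      · rw [h2]
        exact ⟨(hn x h1).1, hq x h1⟩
      · exact hY.cq.2.2 x h1 y h2 hxy⟩ (by rw [card_insert_of_notMem hvY]; omega)
  have h2 : (insert v Y).sup id = Y.sup id := by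
    rw [sup_insert]
    exact sup_eq_right.2 hvl
  rw [sum_insert hvY, hY.eq, h2] at h1
  linarith

/-- cores end outside of the first window -/
theorem klast2 {t k N : ℕ} {q : ℕ → ℕ → Prop} {f : ℕ → ℝ} (hf : Feas2 q k N t f) {Y : Finset ℕ}
    (hY : Tgt2 q k N t f Y) (hc : Y.card < t) : k ≤ Y.sup id := by
  by_contra hcon
  have ht : (0 : ℝ) < t := by exact_mod_cast (by omega : 0 < t)
  have h1 : ∑ x ∈ Y, f x ≤ ∑ x ∈ Y, (1 / (t : ℝ)) :=
    sum_le_sum fun x hx => hf.first x (by have := le_last hx; omega)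
  rw [hY.eq, sum_const, nsmul_eq_mul, mul_one_div] at h1
  have h2 : (1 : ℝ) ≤ 3 ^ (Y.sup id) := one_le_pow₀ (by norm_num)
  have h3 : (Y.card : ℝ) / t < 1 := (div_lt_one ht).2 (by exact_mod_cast hc)
  linarith

open Classical in
/-- the exchange: the last vertex of a tight clique hits every tight clique which ends later in its
reach at a vertex which is not smaller -/
theorem exch2 {t k N : ℕ} {q : ℕ → ℕ → Prop} {f : ℕ → ℝ} (hq1 : ∀ x, q x x)
    (hq2 : ∀ x y, q x y → q y x) (hf : Feas2 q k N t f)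
    {X Y : Finset ℕ} (hX : Tgt2 q k N t f X) (hY : Tgt2 q k N t f Y)
    (hzl : X.sup id ≤ Y.sup id)
    (hn : (Y.filter (fun v => v ∈ LQ q k N (X.sup id))).Nonempty)
    (hlt : ∀ v ∈ Y, v ∈ LQ q k N (X.sup id) → v < X.sup id) : False := by
  obtain ⟨z, hz⟩ : ∃ z, z = X.sup id := ⟨_, rfl⟩
  obtain ⟨l, hl⟩ : ∃ l, l = Y.sup id := ⟨_, rfl⟩
  rw [← hz] at hn hlt hzl
  rw [← hl] at hzl
  obtain ⟨S, hS⟩ : ∃ S, S = Y.filter (fun v => v ∈ LQ q k N z) := ⟨_, rfl⟩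
  rw [← hS] at hn
  have hzX : z ∈ X := by rw [hz]; exact last_mem hX.cq
  have hlY : l ∈ Y := by rw [hl]; exact last_mem hY.cq
  have hmS : ∀ v, v ∈ S ↔ v ∈ Y ∧ v ∈ LQ q k N z := by
    intro v
    rw [hS, mem_filter]
  have hSlt : ∀ v ∈ S, v < z := fun v hv => hlt v ((hmS v).1 hv).1 ((hmS v).1 hv).2
  have hXle : ∀ x ∈ X, x ≤ z := fun x hx => by rw [hz]; exact le_last hx
  have hYle : ∀ y ∈ Y, y ≤ l := fun x hx => by rw [hl]; exact le_last hx
  have hYk : ∀ y ∈ Y, l ≤ y + k := fun x hx => by rw [hl]; exact last_le hY.cq hx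
  obtain ⟨s, hs⟩ := hn
  have hlz : l ≤ z + k := by
    have h1 := hYk s ((hmS s).1 hs).1
    have h2 := hSlt s hs
    omega
  have hzY : z ∉ Y := by
    intro h
    have h1 : z ∈ S := (hmS z).2 ⟨h, mem_LQ.2 ⟨mem_range.1 (hX.cq.2.1 hzX), by omega, by omega,
      hq1 z⟩⟩
    exact lt_irrefl _ (hSlt z h1)
  have hSY : S ⊆ Y := fun v hv => ((hmS v).1 hv).1
  have hq4 : ∀ y ∈ Y, y ∉ S → ¬ q z y := by
    intro y hy hyS h
    refine hyS ((hmS y).2 ⟨hy, mem_LQ.2 ⟨mem_range.1 (hY.cq.2.1 hy), ?_, ?_, h⟩⟩)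
    · have h1 := hYle y hy
      omega
    · have h1 := hYk y hy
      omega
  obtain ⟨Y', hY'⟩ : ∃ Y', Y' = insert z (Y \ S) := ⟨_, rfl⟩
  have hmY : ∀ v, v ∈ Y' ↔ v = z ∨ (v ∈ Y ∧ v ∉ S) := by
    intro v
    rw [hY', mem_insert, mem_sdiff]
  have hcY : Cq q k N Y' := by
    refine ⟨⟨z, (hmY z).2 (Or.inl rfl)⟩, ?_, ?_⟩
    · intro v hv
      rcases (hmY v).1 hv with rfl | h
      · exact hX.cq.2.1 hzX
      · exact hY.cq.2.1 h.1
    · intro x hx y hy hxy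
      rcases (hmY x).1 hx with rfl | ⟨h1, h2⟩ <;> rcases (hmY y).1 hy with rfl | ⟨h3, h4⟩
      · omega
      · have h5 := hYle y h3
        exact ⟨by omega, hq4 y h3 h4⟩
      · have h5 := hYk x h1
        exact ⟨by omega, fun hh => hq4 x h1 h2 (hq2 _ _ hh)⟩
      · exact hY.cq.2.2 x h1 y h3 hxy
  have hzYS : z ∉ Y \ S := fun h => hzY (mem_sdiff.1 h).1
  have hcardY : Y'.card = Y.card - S.card + 1 := by
    rw [hY', card_insert_of_notMem hzYS, card_sdiff_of_subset hSY]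
  have hSle : S.card ≤ Y.card := card_le_card hSY
  have hSpos : 1 ≤ S.card := card_pos.2 ⟨s, hs⟩
  have hYt := hY.card
  have hsY : ∑ x ∈ Y', f x = ∑ x ∈ Y, f x + f z - ∑ x ∈ S, f x := by
    rw [hY', sum_insert hzYS, ← Finset.sum_sdiff hSY]
    ring
  have hsX : ∑ x ∈ X.erase z, f x = ∑ x ∈ X, f x - f z := by
    rw [← Finset.sum_erase_add X f hzX]
    ring
  -- the three bounds
  have h2 := hf.le Y' hcY (by rw [hcardY]; omega)
  have hYs : Y'.sup id ≤ l := by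
    have h6 := last_mem hcY
    rcases (hmY _).1 h6 with h | h
    · rw [h]
      exact hzl
    · exact hYle _ h.1
  have h3 : (3 : ℝ) ^ (Y'.sup id) ≤ 3 ^ l := pow_le_pow_right₀ (by norm_num) hYs
  have hzpos : 1 ≤ z := by
    have := hSlt s hs
    omega
  have sub : ∀ A : Finset ℕ, (∀ v ∈ A, v < z) → A.card ≤ t →
      (A.Nonempty → Cq q k N A) → ∑ x ∈ A, f x ≤ (3 : ℝ) ^ (z - 1) := by
    intro A hA hAc hAq
    rcases A.eq_empty_or_nonempty with rfl | hne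
    · rw [sum_empty]
      positivity
    · have h4 := hf.le A (hAq hne) hAc
      have h5 := hA _ (last_mem (hAq hne))
      have h6 : (3 : ℝ) ^ (A.sup id) ≤ 3 ^ (z - 1) :=
        pow_le_pow_right₀ (by norm_num) (by omega)
      linarith
  have h4 : ∑ x ∈ X.erase z, f x ≤ (3 : ℝ) ^ (z - 1) := by
    refine sub _ (fun v hv => ?_) ((card_le_card (erase_subset _ _)).trans hX.card) (fun hne => ?_)
    · have h5 := mem_erase.1 hv
      have h6 := hXle v h5.2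
      omega
    · exact ⟨hne, (erase_subset _ _).trans hX.cq.2.1, fun x hx y hy hxy =>
        hX.cq.2.2 x (mem_erase.1 hx).2 y (mem_erase.1 hy).2 hxy⟩
  have h5 : ∑ x ∈ S, f x ≤ (3 : ℝ) ^ (z - 1) := by
    refine sub _ hSlt (hSle.trans hYt) (fun hne => ?_)
    exact ⟨hne, hSY.trans hY.cq.2.1, fun x hx y hy hxy =>
        hY.cq.2.2 x (hSY hx) y (hSY hy) hxy⟩
  have e1 : (3 : ℝ) ^ z = 3 * 3 ^ (z - 1) := by
    rw [← pow_succ']
    congr 1
    omega
  have e2 : (0 : ℝ) < 3 ^ (z - 1) := by positivity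
  have hXe := hX.eq
  have hYe := hY.eq
  rw [← hz] at hXe
  rw [← hl] at hYe
  linarith

/-- every vertex of `{f > 0}` in the window of a core is hit -/
theorem hitw2 {t k N : ℕ} {q : ℕ → ℕ → Prop} {f : ℕ → ℝ} (hq1 : ∀ x, q x x)
    (hq2 : ∀ x y, q x y → q y x) (hf : Feas2 q k N t f) {X : Finset ℕ} (hX : Tgt2 q k N t f X)
    (hc : X.card < t) {v : ℕ} (hv : v < N) (hfv : 0 < f v) (h1 : X.sup id ≤ v + k)
    (h2 : v ≤ X.sup id) : ∃ x ∈ X, v ∈ LQ q k N x := by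
  refine kp2 hq1 hq2 hf hX hc hv hfv h2 fun y hy => ?_
  have h3 := le_last hy
  have h4 := last_le hX.cq hy
  exact ⟨by omega, by omega⟩

open Classical in
theorem conf_ge2 {t k N : ℕ} {q : ℕ → ℕ → Prop} {f : ℕ → ℝ} (hq1 : ∀ x, q x x)
    (hq2 : ∀ x y, q x y → q y x) (hf : Feas2 q k N t f) {X Y : Finset ℕ} (hX : Tgt2 q k N t f X)
    (hc : X.card < t) (hY : Tgt2 q k N t f Y) :
    ∀ v ∈ Y, (if X.sup id - k ≤ v ∧ v < X.sup id then 1 else 0) ≤
      (X.filter (fun x => v ∈ LQ q k N x)).card := by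
  intro v hv
  split_ifs with h
  · obtain ⟨x, hx, hvx⟩ := hitw2 hq1 hq2 hf hX hc (mem_range.1 (hY.cq.2.1 hv)) (hY.pos v hv)
      (by omega) (by omega)
    exact card_pos.2 ⟨x, mem_filter.2 ⟨hx, hvx⟩⟩
  · exact Nat.zero_le _

open Classical in
/-- the window of `X` overpays `Y` -/
theorem pay2 {t k N : ℕ} {q : ℕ → ℕ → Prop} {f : ℕ → ℝ} (hq1 : ∀ x, q x x)
    (hq2 : ∀ x y, q x y → q y x) (hf : Feas2 q k N t f)
    {X Y : Finset ℕ} (hX : Tgt2 q k N t f X) (hY : Tgt2 q k N t f Y)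
    (hXc : X.card < t) (hzl : X.sup id ≤ Y.sup id)
    (hn : (Y.filter (fun v => v ∈ LQ q k N (X.sup id))).Nonempty) :
    (Y.filter (fun v => X.sup id - k ≤ v ∧ v < X.sup id)).card + 1 ≤ conf q k N X Y := by
  have hge := conf_ge2 hq1 hq2 hf hX hXc hY
  by_contra hcon
  rw [conf_eq, Finset.card_filter] at hcon
  have hle := sum_le_sum hge
  have hE : ∑ v ∈ Y, (if X.sup id - k ≤ v ∧ v < X.sup id then 1 else 0) =
      ∑ v ∈ Y, (X.filter (fun x => v ∈ LQ q k N x)).card := by omega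
  refine exch2 hq1 hq2 hf hX hY hzl hn fun v hv hvz => ?_
  have h3 := (Finset.sum_eq_sum_iff_of_le hge).1 hE v hv
  by_contra hcon2
  rw [if_neg (by omega)] at h3
  have h8 : X.sup id ∈ X.filter (fun x => v ∈ LQ q k N x) :=
    mem_filter.2 ⟨last_mem hX.cq, hvz⟩
  rw [card_eq_zero.1 h3.symm] at h8
  simp at h8

end Ex

end Pool.Agent.Helper40K9.PS2
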