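import Pool.Agent.Helper74K9.PS.St

/-!
Clique factors in dense subgraphs of powers of cycles: the fractional theorem on the line for all
`t`, with the cost `3 ^ (last Y)` of a clique `Y`: statements.
-/

set_option autoImplicit false

namespace Pool.Agent.Helper40K9.PS2

open Finset Pool.Agent.Helper83K9.CF Pool.Agent.Helper74K9.PS

/-- the feasible functions: at most `3 ^ (last Y)` on the cliques `Y` with at most `t` vertices,
at most `1 / t` on the first window -/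
structure Feas2 (q : ℕ → ℕ → Prop) (k N t : ℕ) (f : ℕ → ℝ) : Prop where
  nonneg : ∀ v, 0 ≤ f v
  first : ∀ v, v < k → f v ≤ 1 / (t : ℝ)
  le : ∀ Y, Cq q k N Y → Y.card ≤ t → ∑ x ∈ Y, f x ≤ (3 : ℝ) ^ (Y.sup id)

/-- the tight cliques inside `{f > 0}` -/
structure Tgt2 (q : ℕ → ℕ → Prop) (k N t : ℕ) (f : ℕ → ℝ) (Y : Finset ℕ) : Prop where
  cq : Cq q k N Y
  card : Y.card ≤ t
  pos : ∀ v ∈ Y, 0 < f v
  eq : ∑ x ∈ Y, f x = (3 : ℝ) ^ (Y.sup id)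

/-- nonnegative weights on tight cliques -/
def Wt2 (q : ℕ → ℕ → Prop) (k N t : ℕ) (f : ℕ → ℝ) (w : Finset ℕ → ℝ) : Prop :=
  (∀ Y, 0 ≤ w Y) ∧ ∀ Y, w Y ≠ 0 → Tgt2 q k N t f Y

/-- complementary solutions of the covering problem: `w` are weights of cliques with at most `t`
vertices (not necessarily inside `{f > 0}`), `lam` are weights of single vertices of the first
window -/
structure Cov (q : ℕ → ℕ → Prop) (k N t : ℕ) (μ f : ℕ → ℝ) (w : Finset ℕ → ℝ) (lam : ℕ → ℝ) :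
    Prop where
  feas : Feas2 q k N t f
  w0 : ∀ Y, 0 ≤ w Y
  wt : ∀ Y, w Y ≠ 0 → Cq q k N Y ∧ Y.card ≤ t ∧ ∑ x ∈ Y, f x = (3 : ℝ) ^ (Y.sup id)
  lam0 : ∀ v, 0 ≤ lam v
  lamt : ∀ v, lam v ≠ 0 → v < k ∧ v < N ∧ 0 < f v
  cover : ∀ v, v < N → μ v ≤ load N w v + lam v
  exact : ∀ v, v < N → 0 < f v → load N w v + lam v = μ v

/-- [LPW2] PROOF.  `f` maximises `∑ μ f` over the compact set of the `f` with `Feas2` vanishing
outside `range N` (`f v ≤ 3 ^ v`).  For `σ` (zero outside `range N`) with `σ v ≤ 0` where `f v = 0`,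
`0 ≤ σ v` for the `v < k` with `f v = 1/t`, `0 ≤ ∑_Y σ` for the cliques `Y`, `|Y| ≤ t`, with
`∑_Y f = 3 ^ (last Y)`, the function `f - ε σ` is feasible, so `∑ μ σ ≥ 0`.  `S_FARKAS` (`CF/Farkas`)
with `V = range N`, `I` = these cliques, these `v < k`, and the `v` with `f v = 0` (column `-1_v`).
Model: `Helper87K9/PS/Lpw.lean`. -/
def S_LPW2 : Prop := ∀ (t k N : ℕ) (q : ℕ → ℕ → Prop) (μ : ℕ → ℝ), 1 ≤ t → 1 ≤ k →
  (∀ x, q x x) → (∀ x y, q x y → q y x) → (∀ x, 0 ≤ μ x) →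
  ∃ (f : ℕ → ℝ) (w : Finset ℕ → ℝ) (lam : ℕ → ℝ), Cov q k N t μ f w lam

open Classical in
/-- the trace on `{f > 0}` of the weights `w` -/
noncomputable def trc (N : ℕ) (f : ℕ → ℝ) (w : Finset ℕ → ℝ) (X : Finset ℕ) : ℝ :=
  ∑ Y ∈ (range N).powerset, if Y.filter (fun v => 0 < f v) = X then w Y else 0

open Classical in
/-- [TRC] traces: the last vertex `l` of `Y` with `∑_Y f = 3 ^ l` has `f l > 0` (otherwise `Y` has a
trace with smaller last vertex `l'` and `∑ f = 3 ^ l > 3 ^ l'`, or the trace is empty and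
`∑_Y f = 0`), so the trace is tight. -/
def S_TRC : Prop := ∀ (t k N : ℕ) (q : ℕ → ℕ → Prop) (μ f : ℕ → ℝ) (w : Finset ℕ → ℝ)
  (lam : ℕ → ℝ), Cov q k N t μ f w lam →
  Wt2 q k N t f (trc N f w) ∧ (∀ v, v < N → 0 < f v → load N (trc N f w) v = load N w v) ∧
  dfc N t (trc N f w) = ∑ Y ∈ (range N).powerset,
    w Y * ((t : ℝ) - (Y.filter (fun v => 0 < f v)).card)

open Classical in
/-- [CERT2] the certificate (`Helper74K9/PS/Cert`), the exchange is `S_EXCH2` -/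
def S_CERT2 : Prop := ∀ (t k N : ℕ) (q : ℕ → ℕ → Prop) (μ f : ℕ → ℝ)
  (w : Finset ℕ → ℝ), 2 ≤ t → 1 ≤ k →
  (∀ x, q x x) → (∀ x y, q x y → q y x) → (∀ x, 0 ≤ μ x) →
  (∀ z x, k ≤ z → z < N → x < N → z ≤ x + k → x ≤ z + k →
    ((t : ℝ) - 1) * ∑ y ∈ LQ q k N x, μ y ≤ ∑ y ∈ Ico (z - k) z, μ y) →
  Feas2 q k N t f → Wt2 q k N t f w →
  (∀ v, v < N → 0 < f v → load N w v ≤ μ v) →
  dfc N t w ≤ ∑ v ∈ (range N).filter (fun v => f v = 0), μ v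

open Classical in
/-- [END2] PROOF.  `∑_{f > 0} μ = ∑ w |Y ∩ {f > 0}| + ∑ lam`, so `t ∑ w + ∑ lam ≤ ∑ μ`
by `S_CERT2` for the traces.  `f₀ = 1 - s / Θ`, `Θ = 1 + ∑ |s|`, has `f₀ ≥ 0`, `∑_Y f₀ ≤ t` on the
cliques with at most `t` vertices, `f₀ ≤ 1` on `[0, k)`, so
`∑ μ f₀ ≤ ∑ w ∑_Y f₀ + ∑ lam f₀ ≤ t ∑ w + ∑ lam ≤ ∑ μ`. -/
def S_END2 : Prop := S_LPW2 → S_TRC → S_CERT2 → ∀ t : ℕ, 2 ≤ t → DualC t ((t : ℝ) - 1)

end Pool.Agent.Helper40K9.PS2
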